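import Pool.Agent.Helper31.BC.Stmts
import Pool.Agent.Helper99.Grid.Choice

/-!
# Branch-and-cut proofs for Euclidean TSP: the module CHS (choices of literals)
-/

set_option autoImplicit false

namespace Pool.Agent.Helper31.BC

open Pool.Agent.Helper52.Grid
open Pool.Agent.Helper99.Grid (litSubs clSubs_eq subs_cons subs_append length_flatMap_litSubs
  sg_append_right sg_append_left sg_cons_succ sg_cons_zero sg_of_le sg_flatMap_ne_none none_pos
  num cnt_eq num_append num_none num_flatMap num_subs)

/-- the choices in the literals of a clause -/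
def chs_cg (c : List (ℕ × Bool)) (j o : ℕ) : List Bool :=
  (c.zipIdx o).flatMap fun y => [decide (y.2 = j) && y.1.2, decide (y.2 = j) && !y.1.2]

theorem chs_cg_cons (l : ℕ × Bool) (c : List (ℕ × Bool)) (j o : ℕ) :
    chs_cg (l :: c) j o = (decide (o = j) && l.2) :: (decide (o = j) && !l.2) :: chs_cg c j (o + 1) := by
  simp [chs_cg, List.zipIdx_cons]

theorem chs_cons (x : List (ℕ × Bool) × ℕ) (pc : PCl) :
    chs (x :: pc) = false :: (chs_cg x.1 x.2 0 ++ chs pc) := by
  simp [chs, chs_cg]

theorem chs_cg_length (c : List (ℕ × Bool)) (j : ℕ) : ∀ o, (chs_cg c j o).length = 2 * c.length := by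
  induction c with
  | nil => intro o; rfl
  | cons l c ih =>
    intro o
    rw [chs_cg_cons, List.length_cons, List.length_cons, ih, List.length_cons]
    omega

theorem chs_length (pc : PCl) : (chs pc).length = (subs (pc.map Prod.fst)).length := by
  induction pc with
  | nil => rfl
  | cons x pc ih =>
    rw [chs_cons, List.length_cons, List.length_append, chs_cg_length, ih, List.map_cons, subs_cons,
      List.length_append, clSubs_eq, List.length_cons, length_flatMap_litSubs]
    omega

/-- the chosen position of a clause -/
theorem chs_cg_iff (c : List (ℕ × Bool)) (j : ℕ) : ∀ o k, (chs_cg c j o).getD k false = true ↔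
    ∃ l, o ≤ j ∧ (c)[j - o]? = some l ∧ k = 2 * (j - o) + (if l.2 = true then 0 else 1) := by
  induction c with
  | nil =>
    intro o k
    simp [chs_cg]
  | cons l c ih =>
    intro o k
    rw [chs_cg_cons]
    rcases k with _ | _ | k
    · rw [List.getD_cons_zero]
      constructor
      · intro h
        rw [Bool.and_eq_true, decide_eq_true_iff] at h
        refine ⟨l, h.1.le, ?_, ?_⟩
        · rw [h.1]; simp
        · rw [h.1, h.2]; simp
      · rintro ⟨l', hle, hl', hk⟩
        have hoj : o = j := by omega
        subst hoj
        rw [Nat.sub_self, List.getElem?_cons_zero, Option.some.injEq] at hl'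
        subst hl'
        rcases hb : l.2 with _ | _
        · rw [hb] at hk; simp at hk
        · simp
    · rw [List.getD_cons_succ, List.getD_cons_zero]
      constructor
      · intro h
        rw [Bool.and_eq_true, decide_eq_true_iff, Bool.not_eq_true'] at h
        refine ⟨l, h.1.le, ?_, ?_⟩
        · rw [h.1]; simp
        · rw [h.1, h.2]; simp
      · rintro ⟨l', hle, hl', hk⟩
        have hoj : o = j := by
          split_ifs at hk <;> omega
        subst hoj
        rw [Nat.sub_self, List.getElem?_cons_zero, Option.some.injEq] at hl'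
        subst hl'
        rcases hb : l.2 with _ | _
        · simp
        · rw [hb] at hk; simp at hk
    · rw [List.getD_cons_succ, List.getD_cons_succ, ih (o + 1) k]
      constructor
      · rintro ⟨l', hle, hl', hk⟩
        have h1 : j - o = (j - (o + 1)) + 1 := by omega
        refine ⟨l', by omega, ?_, ?_⟩
        · rw [h1, List.getElem?_cons_succ]; exact hl'
        · rw [h1, hk]; omega
      · rintro ⟨l', hle, hl', hk⟩
        have hoj : o < j := by
          by_contra hc
          have h0 : j - o = 0 := by omega
          rw [h0] at hk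
          split_ifs at hk <;> omega
        have h1 : j - o = (j - (o + 1)) + 1 := by omega
        refine ⟨l', by omega, ?_, ?_⟩
        · rw [h1, List.getElem?_cons_succ] at hl'; exact hl'
        · rw [h1] at hk; omega

/-- the choices in a given clause -/
theorem chs_mid (pc1 pc2 : PCl) (x : List (ℕ × Bool) × ℕ) (j : ℕ) (hj : j < 2 * x.1.length) :
    chf (pc1 ++ x :: pc2) ((subs (pc1.map Prod.fst)).length + (1 + j)) =
      (chs_cg x.1 x.2 0).getD j false := by
  unfold chf
  have h1 : chs (pc1 ++ x :: pc2) = chs pc1 ++ chs (x :: pc2) := by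
    simp [chs]
  rw [h1, ← chs_length, List.getD_append_right _ _ _ _ (by omega), Nat.add_sub_cancel_left, chs_cons,
    Nat.add_comm 1 j, List.getD_cons_succ, List.getD_append]
  rw [chs_cg_length]
  exact hj

/-- the chosen positions -/
theorem chs_ex : ∀ (pc : PCl) (k : ℕ), chf pc k = true → ∃ pc1 x pc2 l, pc = pc1 ++ x :: pc2 ∧
    x.1[x.2]? = some l ∧
    k = (subs (pc1.map Prod.fst)).length + (1 + (2 * x.2 + (if l.2 = true then 0 else 1))) := by
  intro pc
  induction pc with
  | nil =>
    intro k hk
    simp [chf, chs] at hk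
  | cons x pc ih =>
    intro k hk
    unfold chf at hk
    rw [chs_cons] at hk
    rcases k with _ | k
    · rw [List.getD_cons_zero] at hk
      exact absurd hk (by simp)
    · rw [List.getD_cons_succ] at hk
      by_cases hlt : k < (chs_cg x.1 x.2 0).length
      · rw [List.getD_append _ _ _ _ hlt, chs_cg_iff] at hk
        obtain ⟨l, -, hl, hk⟩ := hk
        refine ⟨[], x, pc, l, rfl, ?_, ?_⟩
        · rw [Nat.sub_zero] at hl; exact hl
        · rw [hk]
          simp [subs]
          omega
      · rw [List.getD_append_right _ _ _ _ (not_lt.1 hlt)] at hk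
        obtain ⟨pc1, x', pc2, l, rfl, hl, hk'⟩ := ih _ hk
        refine ⟨x :: pc1, x', pc2, l, rfl, hl, ?_⟩
        rw [List.map_cons, subs_cons, List.length_append, clSubs_eq, List.length_cons,
          length_flatMap_litSubs]
        rw [chs_cg_length] at hk' hlt
        omega

/-- the chosen subcolumn is docked, and its block is in state `true` iff the literal is true -/
theorem chs_dock (φ1 φ2 : CNF) (c : List (ℕ × Bool)) (l : ℕ × Bool) (j : ℕ) (hl : (c)[j]? = some l) :
    sg (subs (φ1 ++ c :: φ2)) ((subs φ1).length + (1 + (2 * j + (if l.2 = true then 0 else 1)))) =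
      some (l.1, true) ∧
    ∀ a, bst (subs (φ1 ++ c :: φ2)) a l.1
      ((subs φ1).length + (1 + (2 * j + (if l.2 = true then 0 else 1)))) = (a l.1 == l.2) := by
  obtain ⟨hjlt, hjl⟩ := List.getElem?_eq_some_iff.1 hl
  have hc : c = c.take j ++ l :: c.drop (j + 1) := by
    rw [← hjl, List.getElem_cons_drop, List.take_append_drop]
  have hc1 : (c.take j).length = j := by
    rw [List.length_take]; omega
  generalize c.take j = c1 at hc hc1
  generalize c.drop (j + 1) = c2 at hc
  subst hc
  set pre : List Sub := subs φ1 ++ none :: c1.flatMap litSubs with hpre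
  have hs : subs (φ1 ++ (c1 ++ l :: c2) :: φ2) =
      pre ++ some (l.1, l.2) :: some (l.1, !l.2) :: (c2.flatMap litSubs ++ subs φ2) := by
    rw [subs_append, subs_cons, clSubs_eq, hpre, List.flatMap_append, List.flatMap_cons]
    simp [litSubs]
  have hlen : pre.length = (subs φ1).length + 1 + 2 * j := by
    rw [hpre, List.length_append, List.length_cons, length_flatMap_litSubs]
    omega
  have hev : num l.1 pre % 2 = 0 := by
    rw [hpre, num_append, num_none]
    have h1 := num_subs l.1 φ1
    have h2 := num_flatMap l.1 c1
    omega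
  rw [hs]
  rcases hb : l.2 with _ | _
  · -- the second subcolumn
    have hpos : (subs φ1).length + (1 + (2 * j + (if false = true then 0 else 1))) = pre.length + 1 := by
      rw [hlen]; simp; omega
    rw [hpos]
    refine ⟨?_, ?_⟩
    · rw [sg_append_right, sg_cons_succ, sg_cons_zero]
      rfl
    · intro a
      have h3 : (pre ++ some (l.1, false) :: some (l.1, !false) ::
          (c2.flatMap litSubs ++ subs φ2)).take (pre.length + 1) =
          pre ++ [some (l.1, false)] := by
        rw [List.take_append]
        simp
      unfold bst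
      rw [cnt_eq, h3, num_append]
      have h1 : num l.1 [some (l.1, false)] = 1 := by simp [num]
      rw [h1]
      have h2 : decide ((num l.1 pre + 1) % 2 = 0) = false := by
        rw [decide_eq_false_iff_not]
        omega
      rw [h2]
  · have hpos : (subs φ1).length + (1 + (2 * j + (if true = true then 0 else 1))) = pre.length := by
      rw [hlen]; simp; omega
    rw [hpos]
    refine ⟨?_, ?_⟩
    · have := sg_append_right pre
        (some (l.1, true) :: some (l.1, !true) :: (c2.flatMap litSubs ++ subs φ2)) 0
      rw [Nat.add_zero] at this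
      rw [this, sg_cons_zero]
    · intro a
      have h3 : (pre ++ some (l.1, true) :: some (l.1, !true) ::
          (c2.flatMap litSubs ++ subs φ2)).take pre.length = pre := by
        simp
      unfold bst
      rw [cnt_eq, h3]
      have h2 : decide (num l.1 pre % 2 = 0) = true := by
        rw [decide_eq_true_iff]
        exact hev
      rw [h2]

/-- CHS -/
theorem st_CHS : ST_CHS := by
  intro pc hpc
  have hthird : ∀ k, chf pc k = true → ∃ x ∈ pc, ∃ l, x.1[x.2]? = some l ∧
      sg (subs (pc.map Prod.fst)) k = some (l.1, true) ∧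
      ∀ a, bst (subs (pc.map Prod.fst)) a l.1 k = (a l.1 == l.2) := by
    intro k hk
    obtain ⟨pc1, x, pc2, l, rfl, hl, rfl⟩ := chs_ex pc k hk
    refine ⟨x, by simp, l, hl, ?_⟩
    have h := chs_dock (pc1.map Prod.fst) (pc2.map Prod.fst) x.1 l x.2 hl
    rw [List.map_append, List.map_cons]
    exact h
  refine ⟨⟨?_, ?_⟩, chs_length pc, hthird⟩
  · intro k hk
    obtain ⟨x, -, l, -, h, -⟩ := hthird k hk
    exact ⟨l.1, h⟩
  · intro k n hk hlt hin hend
    obtain ⟨φ1, c, φ2, hφ, hk1⟩ := none_pos _ k hk hlt
    obtain ⟨pc1, pc', hpc1, hφ1, hrest⟩ := List.map_eq_append_iff.1 hφ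
    obtain ⟨x, pc2, hpc2, hx, hφ2⟩ := List.map_eq_cons_iff.1 hrest
    subst hφ1 hx hφ2 hpc2 hpc1
    rw [List.map_append, List.map_cons] at hk hlt hin hend
    have hs : subs (pc1.map Prod.fst ++ x.1 :: pc2.map Prod.fst) =
        subs (pc1.map Prod.fst) ++ none :: (x.1.flatMap litSubs ++ subs (pc2.map Prod.fst)) := by
      rw [subs_append, subs_cons, clSubs_eq]; rfl
    have hn : 2 * x.1.length ≤ n := by
      by_contra hn
      rw [hs, hk1, show (subs (pc1.map Prod.fst)).length + n + 1 =
        (subs (pc1.map Prod.fst)).length + (n + 1) from rfl,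
        sg_append_right, sg_cons_succ, sg_append_left] at hend
      · exact sg_flatMap_ne_none (by omega) hend
      · rw [length_flatMap_litSubs]; omega
    have hn2 : n ≤ 2 * x.1.length := by
      by_contra hn2
      have h := hin (k + (2 * x.1.length + 1)) (by omega) (by omega)
      apply h
      rw [hs, hk1, sg_append_right, sg_cons_succ]
      have h5 := sg_append_right (x.1.flatMap litSubs) (subs (pc2.map Prod.fst)) 0
      rw [length_flatMap_litSubs, Nat.add_zero] at h5
      rw [h5]
      rcases pc2 with _ | ⟨y, pc2⟩
      · rfl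
      · rw [List.map_cons, subs_cons, clSubs_eq]
        rfl
    have hnn : n = 2 * x.1.length := le_antisymm hn2 hn
    have hx2 : x.2 < x.1.length := hpc x (by simp)
    have hch : ∀ q, k < q → q ≤ k + n → (chf (pc1 ++ x :: pc2) q = true ↔
        q = k + (1 + (2 * x.2 + (if (x.1[x.2]).2 = true then 0 else 1)))) := by
      intro q hq1 hq2
      obtain ⟨j, rfl⟩ : ∃ j, q = k + (1 + j) := ⟨q - k - 1, by omega⟩
      rw [hk1, chs_mid pc1 pc2 x j (by omega), chs_cg_iff]
      constructor
      · rintro ⟨l, -, hl, hj⟩
        rw [Nat.sub_zero, List.getElem?_eq_getElem hx2, Option.some.injEq] at hl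
        rw [Nat.sub_zero, ← hl] at hj
        rw [hj]
      · intro hj
        refine ⟨x.1[x.2], Nat.zero_le _, ?_, ?_⟩
        · rw [Nat.sub_zero, List.getElem?_eq_getElem hx2]
        · rw [Nat.sub_zero]
          omega
    have hle : 2 * x.2 + (if (x.1[x.2]).2 = true then 0 else 1) < 2 * x.1.length := by
      split_ifs <;> omega
    refine ⟨k + (1 + (2 * x.2 + (if (x.1[x.2]).2 = true then 0 else 1))), ⟨by omega, by omega, ?_⟩, ?_⟩
    · exact (hch _ (by omega) (by omega)).2 rfl
    · intro l' h1 h2 h3
      exact (hch l' h1 h2).1 h3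

end Pool.Agent.Helper31.BC
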